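import Mathlib
import Pool.Agent.Lib.MP_53e7c4_co.Defs
import Pool.Agent.Lib.MP_53e7c4_co.Main

namespace Pool.Agent.Results.MP_53e7c4_co.WedgeOfSpheres

open scoped ContinuousMap
open Pool.Agent.Lib.MP_53e7c4_co

/-- For every `k ≥ 3` the order complex of the proper part of the poset `Π_{2k+1,≠k}` of the
partitions of `[2k+1]` without a block of size `k` is homotopy equivalent to a wedge of
(at least one) spheres, all of dimension `2k-3`. -/
theorem result : ∀ k : ℕ, 3 ≤ k → ∃ N : ℕ, 1 ≤ N ∧
    Nonempty (OrderComplex (PartNe (2 * k + 1) k) ≃ₕ SphereWedge N (2 * k - 3)) := by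
  intro k hk
  exact main hk

end Pool.Agent.Results.MP_53e7c4_co.WedgeOfSpheres
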